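import Mathlib
import Pool.Agent.H32.PopFS
import Pool.Agent.H32.PrimeSum

namespace Pool.Agent.Results.MP_071fc1_co.ExpLowerBound

open Finset Pool.Agent.H32

/-- N is ε-good -/
def IsGood (ε : ℝ) (N : ℕ) : Prop :=
  ∀ δ : ℝ, 0 < δ → δ ≤ 1 → ∀ A : Finset ℤ, A ⊆ Finset.Icc 1 (N : ℤ) → δ * N ≤ (A.card : ℝ) →
    ∃ y : ℤ, y ≠ 0 ∧ (δ ^ 2 - ε) * N ≤ ((A.filter fun x => x + y ^ 2 ∈ A).card : ℝ)

theorem not_good {ε : ℝ} {N : ℕ} {A : Finset ℕ} (hA : A ⊆ range N) (hne : A.Nonempty)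
    (h : ∀ y, 1 ≤ y → ((A.filter fun x => x + y ^ 2 ∈ A).card : ℝ) <
      (((A.card : ℝ) / N) ^ 2 - ε) * N) : ¬ IsGood ε N := by
  intro hg
  have hc : (0 : ℝ) < A.card := by exact_mod_cast hne.card_pos
  have hcN : (A.card : ℝ) ≤ N := by
    have := card_le_card hA
    rw [card_range] at this
    exact_mod_cast this
  have hN : (0 : ℝ) < N := by linarith
  let φ : ℕ ↪ ℤ := ⟨fun x => (x : ℤ) + 1, fun x y hxy => by simpa using hxy⟩
  obtain ⟨y, hy0, hy⟩ := hg (A.card / N) (by positivity) (by rwa [div_le_one hN]) (A.map φ)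
    (by
      intro z hz
      obtain ⟨x, hx, rfl⟩ := mem_map.1 hz
      have := mem_range.1 (hA hx)
      simp only [φ, Function.Embedding.coeFn_mk, mem_Icc]
      omega)
    (by rw [card_map, div_mul_cancel₀ _ hN.ne'])
  have h1 := h y.natAbs (by omega)
  have h2 : ((A.map φ).filter fun x => x + y ^ 2 ∈ A.map φ)
      = (A.filter fun x => x + y.natAbs ^ 2 ∈ A).map φ := by
    rw [filter_map]
    congr 1
    refine filter_congr fun x _ => ?_
    have : φ x + y ^ 2 = φ (x + y.natAbs ^ 2) := by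
      simp only [φ, Function.Embedding.coeFn_mk]
      push_cast
      rw [sq_abs]; ring
    simp only [Function.comp_apply]
    rw [this, mem_map' φ]
  rw [h2, card_map] at hy
  linarith

set_option exponentiation.threshold 1000 in
theorem result : ∃ c : ℝ, 0 < c ∧ ∃ ε₀ : ℝ, 0 < ε₀ ∧ ∀ ε : ℝ, 0 < ε → ε < ε₀ →
    ∀ N₀ : ℕ, (∀ N : ℕ, N₀ ≤ N → IsGood ε N) → Real.exp (ε ^ (-c)) < N₀ := by
  have h3 : ∀ᶠ u : ℕ in Filter.atTop, 504 * (u ^ 112) ^ 4 < 3 ^ u := by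
    have := tendsto_pow_const_div_const_pow_of_one_lt 448 (show (1 : ℝ) < 3 by norm_num)
    filter_upwards [this.eventually (gt_mem_nhds (show (0 : ℝ) < 1 / 504 by norm_num))] with u hu
    rw [div_lt_iff₀ (by positivity)] at hu
    have : (504 : ℝ) * ((u : ℝ) ^ 112) ^ 4 < 3 ^ u := by
      rw [← pow_mul]; norm_num at hu ⊢; linarith
    exact_mod_cast this
  obtain ⟨u₀, hu₀⟩ := Filter.eventually_atTop.1 (h3.and PrimeSum.prime_sum)
  set T₀ : ℝ := u₀ + 1152 with hT₀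
  have hT₀pos : 1152 ≤ T₀ := by
    have : (0 : ℝ) ≤ u₀ := Nat.cast_nonneg _
    linarith
  refine ⟨1 / 560, by norm_num, (T₀ ^ 560)⁻¹, by positivity, ?_⟩
  intro ε hε hε₀ N₀ hN₀
  set T := ε ^ (-(1 / 560) : ℝ) with hT
  have hTpos : 0 < T := Real.rpow_pos_of_pos hε _
  have hTε : T ^ 560 = ε⁻¹ := by
    rw [hT, ← Real.rpow_natCast, ← Real.rpow_mul hε.le, ← Real.rpow_neg_one]
    norm_num
  have hTT : T₀ ≤ T := by
    have : T₀ ^ 560 ≤ T ^ 560 := by
      rw [hTε]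
      exact (le_inv_comm₀ (by positivity) hε).2 hε₀.le
    exact le_of_pow_le_pow_left₀ (by norm_num) hTpos.le this
  set u := ⌈T⌉₊ with hu
  have hu1 : T ≤ u := Nat.le_ceil T
  have hu2 : (u : ℝ) ≤ 2 * T := by
    have := Nat.ceil_lt_add_one hTpos.le
    linarith
  have hu3 : u₀ ≤ u := by
    have : (u₀ : ℝ) ≤ u := by linarith
    exact_mod_cast this
  have hu4 : (1152 : ℝ) ≤ u := by linarith
  have hu5 : 1 ≤ u := by
    have : (1 : ℝ) ≤ u := by linarith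
    exact_mod_cast this
  obtain ⟨ha, hb⟩ := hu₀ u hu3
  obtain ⟨A, hA1, hA2, hA3⟩ := PopFS.core (u ^ 112) (3 ^ u) (Nat.one_le_pow _ _ hu5)
    ((range (u ^ 112 + 1)).filter (fun p => p.Prime ∧ p % 4 = 1))
    (by
      intro p hp
      simp only [mem_filter, mem_range] at hp
      exact ⟨hp.2.1, hp.2.2, by omega⟩)
    (by
      refine le_trans ?_ hb
      push_cast
      rw [Real.log_pow]
      have : Real.log 3 ≤ 2 := by
        have := Real.log_le_sub_one_of_pos (show (0 : ℝ) < 3 by norm_num)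
        linarith
      nlinarith)
    ha ε
    (by
      rw [one_div, le_inv_comm₀ hε (by positivity), ← hTε]
      push_cast
      have h1 : ((u : ℝ) ^ 112) ^ 4 ≤ ((2 * T) ^ 112) ^ 4 := by gcongr
      have h2 : (1152 : ℝ) ^ 112 ≤ T ^ 112 := pow_le_pow_left₀ (by norm_num) (by linarith) _
      have h4 : (72 : ℝ) * 2 ^ 448 ≤ 1152 ^ 112 := by norm_num
      calc 72 * ((u : ℝ) ^ 112) ^ 4 ≤ 72 * ((2 * T) ^ 112) ^ 4 := by linarith
        _ = (72 * 2 ^ 448) * T ^ 448 := by ring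
        _ ≤ T ^ 112 * T ^ 448 := mul_le_mul_of_nonneg_right (h4.trans h2) (by positivity)
        _ = T ^ 560 := by ring)
  have hbad := not_good hA1 hA2 hA3
  have hlt : (3 ^ u) ^ 4 < N₀ := by
    by_contra hc
    exact hbad (hN₀ _ (not_lt.1 hc))
  have hle : 3 ^ u ≤ (3 ^ u) ^ 4 := Nat.le_self_pow (by norm_num) _
  calc Real.exp T ≤ Real.exp u := Real.exp_le_exp.2 hu1
    _ = Real.exp 1 ^ u := by rw [← Real.exp_nat_mul]; simp
    _ ≤ 3 ^ u := pow_le_pow_left₀ (Real.exp_pos 1).le (by have := Real.exp_one_lt_d9; linarith) _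
    _ < N₀ := by exact_mod_cast lt_of_le_of_lt hle hlt

end Pool.Agent.Results.MP_071fc1_co.ExpLowerBound
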